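import Pool.Agent.Helper79.SC.Final2

/-!
# Graphs of maximum degree at most two with at most seven triangles are strongly 4-colourable
-/

set_option autoImplicit false

namespace Pool.Agent.Results.MP_4f0caa_co.SevenTriangles

open Pool.Agent.Helper79.SC

/-- Every finite graph in which every vertex has at most two neighbours and which contains at most
seven triangles is strongly 4-colourable, so its strong chromatic number is at most four. -/
theorem result {V : Type*} [Finite V] (G : SimpleGraph V)
    (h2 : ∀ v, (G.neighborSet v).ncard ≤ 2) (ht : triangles G ≤ 7) :
    StronglyColourable G 4 ∧ strongChromaticNumber G ≤ 4 :=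
  ⟨strongly7 G h2 ht, strong_le7 G h2 ht⟩

end Pool.Agent.Results.MP_4f0caa_co.SevenTriangles
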